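import Mathlib

set_option autoImplicit false
open scoped Matrix.Norms.L2Operator Kronecker

namespace Pool.Agent.H652.L1C

/-- `T` has norm at most `C` for the limsup seminorm. -/
def Ctr {ι : ℕ → Type} [∀ i, Fintype (ι i)] [∀ i, DecidableEq (ι i)]
    {n : Type} [Fintype n] [DecidableEq n] (C : ℝ)
    (T : (∀ i, Matrix (ι i) (ι i) ℂ) →ₗ[ℂ] Matrix n n ℂ) : Prop :=
  ∀ (x : ∀ i, Matrix (ι i) (ι i) ℂ) (c : ℝ), (∀ᶠ i in Filter.atTop, ‖x i‖ ≤ c) → ‖T x‖ ≤ C * c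

/-- The gap property. -/
def Gap {Λ : Type} [Fintype Λ] {ι : ℕ → Type} [∀ i, Fintype (ι i)] [∀ i, DecidableEq (ι i)]
    (u : Λ → ∀ i, Matrix (ι i) (ι i) ℂ) (R L : ℝ) : Prop :=
  0 ≤ R ∧ (∀ k i, ‖u k i‖ ≤ 1) ∧ ∀ j, ∃ z : (Λ → Matrix (ι j) (ι j) ℂ) →ₗ[ℂ] ℂ,
    (∀ (w : Λ → Matrix (ι j) (ι j) ℂ) (c : ℝ), 0 ≤ c → (∀ k, ‖w k‖ ≤ c) → ‖z w‖ ≤ R * c) ∧
    (∀ T : (∀ i, Matrix (ι i) (ι i) ℂ) →ₗ[ℂ] Matrix (ι j) (ι j) ℂ,
      Ctr 1 T → ‖z (fun k => T (u k))‖ ≤ 1) ∧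
    L ≤ ‖z (fun k => u k j)‖

/-- the off-diagonal symmetry `[[0, g], [g⁻¹, 0]]` attached to a permutation. -/
def symW {Z : Type} [Fintype Z] [DecidableEq Z] (g : Equiv.Perm Z) :
    Matrix (Fin 2 × Z) (Fin 2 × Z) ℂ :=
  Matrix.of fun a b =>
    if (a.1 = 0 ∧ b.1 = 1 ∧ a.2 = g b.2) ∨ (a.1 = 1 ∧ b.1 = 0 ∧ b.2 = g a.2) then 1 else 0

/-- the diagonal matrix `e₁₁ ⊗ diag f`. -/
def e11 {Z : Type} [Fintype Z] [DecidableEq Z] (f : Z → ℂ) : Matrix (Fin 2 × Z) (Fin 2 × Z) ℂ :=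
  Matrix.diagonal fun a => if a.1 = 0 then f a.2 else 0

/-- the finite index type -/
abbrev Y (p : ℕ → ℕ) (i : ℕ) : Type := ZMod (p i) × ZMod (p i)

/-- the nine operators on `ℓ²((ℤ/p)²)`. -/
noncomputable def sMat (p : ℕ → ℕ) (i : ℕ) [NeZero (p i)] : Fin 9 → Matrix (Y p i) (Y p i) ℂ :=
  ![1,
    Matrix.diagonal (fun x => Complex.exp (2 * Real.pi * Complex.I * ((x.1.val : ℂ) / (p i : ℂ)))),
    Matrix.diagonal (fun x => Complex.exp (-(2 * Real.pi * Complex.I * ((x.1.val : ℂ) / (p i : ℂ))))),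
    Matrix.diagonal (fun x => Complex.exp (2 * Real.pi * Complex.I * ((x.2.val : ℂ) / (p i : ℂ)))),
    Matrix.diagonal (fun x => Complex.exp (-(2 * Real.pi * Complex.I * ((x.2.val : ℂ) / (p i : ℂ))))),
    Matrix.of (fun x y => if x = (y.1 + y.2, y.2) then 1 else 0),
    Matrix.of (fun x y => if x = (y.1 - y.2, y.2) then 1 else 0),
    Matrix.of (fun x y => if x = (y.1, y.2 + y.1) then 1 else 0),
    Matrix.of (fun x y => if x = (y.1, y.2 - y.1) then 1 else 0)]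

/-- matrix units tensored with the nine operators. -/
noncomputable def uMat (p : ℕ → ℕ) [∀ i, NeZero (p i)] (k : Fin 2 × Fin 2 × Fin 9) (i : ℕ) :
    Matrix (Fin 2 × Y p i) (Fin 2 × Y p i) ℂ :=
  Matrix.of fun a b => if a.1 = k.1 ∧ b.1 = k.2.1 then sMat p i k.2.2 a.2 b.2 else 0


end Pool.Agent.H652.L1C
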