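import Mathlib
import Pool.Agent.H652.L1Q.JLq
import Pool.Agent.H652.L1Q.CDefs

set_option autoImplicit false
open scoped Matrix.Norms.L2Operator

namespace Pool.Agent.H652.L1Q

open Pool.Agent.H652.L1C (Y sMat uMat symW e11)






/-- the involution underlying `symW`. -/
def sigW {Z : Type} (g : Equiv.Perm Z) (a : Fin 2 × Z) : Fin 2 × Z :=
  if a.1 = 0 then (1, g.symm a.2) else (0, g a.2)

theorem sigW_zero {Z : Type} (g : Equiv.Perm Z) (x : Z) : sigW g (0, x) = (1, g.symm x) := by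
  simp [sigW]

theorem sigW_one {Z : Type} (g : Equiv.Perm Z) (x : Z) : sigW g (1, x) = (0, g x) := by
  simp [sigW]

theorem sigW_sigW {Z : Type} (g : Equiv.Perm Z) (a : Fin 2 × Z) : sigW g (sigW g a) = a := by
  obtain ⟨i, x⟩ := a
  fin_cases i
  · show sigW g (sigW g (0, x)) = (0, x)
    rw [sigW_zero, sigW_one]; simp
  · show sigW g (sigW g (1, x)) = (1, x)
    rw [sigW_one, sigW_zero]; simp

theorem symW_apply {Z : Type} [Fintype Z] [DecidableEq Z] (g : Equiv.Perm Z)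
    (a b : Fin 2 × Z) : symW g a b = if sigW g a = b then 1 else 0 := by
  obtain ⟨i, x⟩ := a
  obtain ⟨k, y⟩ := b
  unfold symW
  rw [Matrix.of_apply]
  congr 1
  apply propext
  fin_cases i <;> fin_cases k
  · simp [sigW]
  · simp [sigW, Equiv.symm_apply_eq]
  · simp [sigW, eq_comm]
  · simp [sigW]

theorem sigW_eq_comm {Z : Type} (g : Equiv.Perm Z)
    (a b : Fin 2 × Z) : (sigW g a = b) ↔ (a = sigW g b) := by
  constructor
  · intro h; rw [← h, sigW_sigW]
  · intro h; rw [h, sigW_sigW]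

theorem symW_mul {Z : Type} [Fintype Z] [DecidableEq Z] (g : Equiv.Perm Z)
    (X : Matrix (Fin 2 × Z) (Fin 2 × Z) ℂ) (a b : Fin 2 × Z) :
    (symW g * X) a b = X (sigW g a) b := by
  rw [Matrix.mul_apply, Finset.sum_eq_single (sigW g a)]
  · rw [symW_apply]; simp
  · intro c _ hc
    rw [symW_apply, if_neg (fun h => hc h.symm)]; simp
  · intro h; exact absurd (Finset.mem_univ _) h

theorem mul_symW {Z : Type} [Fintype Z] [DecidableEq Z] (g : Equiv.Perm Z)
    (X : Matrix (Fin 2 × Z) (Fin 2 × Z) ℂ) (a b : Fin 2 × Z) :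
    (X * symW g) a b = X a (sigW g b) := by
  rw [Matrix.mul_apply, Finset.sum_eq_single (sigW g b)]
  · rw [symW_apply, sigW_sigW]; simp
  · intro c _ hc
    rw [symW_apply, if_neg (fun h => hc ((sigW_eq_comm g c b).1 h))]; simp
  · intro h; exact absurd (Finset.mem_univ _) h

theorem symW_conj {Z : Type} [Fintype Z] [DecidableEq Z] (g : Equiv.Perm Z)
    (X : Matrix (Fin 2 × Z) (Fin 2 × Z) ℂ) (a b : Fin 2 × Z) :
    (symW g * X * symW g) a b = X (sigW g a) (sigW g b) := by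
  rw [mul_symW, symW_mul]

theorem symW_star {Z : Type} [Fintype Z] [DecidableEq Z] (g : Equiv.Perm Z) :
    star (symW g) = symW g := by
  ext a b
  rw [Matrix.star_apply, symW_apply, symW_apply]
  by_cases h : sigW g a = b
  · rw [if_pos h, if_pos (by rw [← h, sigW_sigW])]; simp
  · rw [if_neg h, if_neg (fun h' => h (by rw [← h', sigW_sigW]))]; simp

theorem symW_sq {Z : Type} [Fintype Z] [DecidableEq Z] (g : Equiv.Perm Z) :
    symW g * symW g = 1 := by
  ext a b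
  rw [mul_symW, symW_apply, Matrix.one_apply]
  by_cases h : a = b
  · rw [if_pos h, if_pos (by rw [h])]
  · rw [if_neg h, if_neg]
    intro h'
    apply h
    have := congrArg (sigW g) h'
    rwa [sigW_sigW, sigW_sigW] at this

/-- the diagonal matrix `e₂₂ ⊗ diag f`. -/
def e22W {Z : Type} [Fintype Z] [DecidableEq Z] (f : Z → ℂ) :
    Matrix (Fin 2 × Z) (Fin 2 × Z) ℂ :=
  Matrix.diagonal fun a => if a.1 = 1 then f a.2 else 0

theorem conj_e11 {Z : Type} [Fintype Z] [DecidableEq Z] (g : Equiv.Perm Z) (f : Z → ℂ) :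
    symW g * e11 f * symW g = e22W (fun x => f (g x)) := by
  ext a b
  rw [symW_conj]
  unfold e11 e22W
  rw [Matrix.diagonal_apply, Matrix.diagonal_apply]
  by_cases h : a = b
  · subst h
    rw [if_pos rfl, if_pos rfl]
    obtain ⟨i, x⟩ := a
    fin_cases i
    · simp [sigW]
    · simp [sigW]
  · rw [if_neg h, if_neg]
    intro h'
    apply h
    have := congrArg (sigW g) h'
    rwa [sigW_sigW, sigW_sigW] at this

theorem conj_e22 {Z : Type} [Fintype Z] [DecidableEq Z] (f : Z → ℂ) :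
    symW 1 * e22W f * symW 1 = e11 f := by
  ext a b
  rw [symW_conj]
  unfold e11 e22W
  rw [Matrix.diagonal_apply, Matrix.diagonal_apply]
  by_cases h : a = b
  · subst h
    rw [if_pos rfl, if_pos rfl]
    obtain ⟨i, x⟩ := a
    fin_cases i
    · simp [sigW]
      rfl
    · simp [sigW]
  · rw [if_neg h, if_neg]
    intro h'
    apply h
    have := congrArg (sigW (1 : Equiv.Perm Z)) h'
    rwa [sigW_sigW, sigW_sigW] at this

theorem norm_e11_le {Z : Type} [Fintype Z] [DecidableEq Z] (f : Z → ℂ) (hf : ∀ x, ‖f x‖ ≤ 1) :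
    ‖e11 f‖ ≤ 1 := by
  unfold e11
  rw [Matrix.l2_opNorm_diagonal, pi_norm_le_iff_of_nonneg zero_le_one]
  intro a
  by_cases h : a.1 = 0
  · rw [if_pos h]; exact hf _
  · rw [if_neg h]; simp

theorem norm_e22_le {Z : Type} [Fintype Z] [DecidableEq Z] (f : Z → ℂ) (hf : ∀ x, ‖f x‖ ≤ 1) :
    ‖e22W f‖ ≤ 1 := by
  unfold e22W
  rw [Matrix.l2_opNorm_diagonal, pi_norm_le_iff_of_nonneg zero_le_one]
  intro a
  by_cases h : a.1 = 1
  · rw [if_pos h]; exact hf _
  · rw [if_neg h]; simp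

theorem entry_le_norm {n : Type} [Fintype n] [DecidableEq n] (M : Matrix n n ℂ) (a b : n) :
    ‖M a b‖ ≤ ‖M‖ := by
  have h := Matrix.l2_opNorm_mulVec M (EuclideanSpace.single b (1 : ℂ))
  have h2 : ‖(EuclideanSpace.single b (1 : ℂ) : EuclideanSpace ℂ n)‖ = 1 := by simp
  rw [h2, mul_one] at h
  refine le_trans ?_ h
  refine le_trans (le_of_eq ?_) (PiLp.norm_apply_le _ a)
  simp [Matrix.mulVec_single]

theorem equivarianceQ {Z : ℕ → Type} [∀ i, Fintype (Z i)] [∀ i, DecidableEq (Z i)] (j : ℕ)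
    (g : ∀ i, Equiv.Perm (Z i))
    (T : (∀ i, Matrix (Fin 2 × Z i) (Fin 2 × Z i) ℂ) → Matrix (Fin 2 × Z j) (Fin 2 × Z j) ℂ)
    (ε : ℝ) (hε : 0 < ε) (hε1 : ε ≤ 1)
    (hT : ∀ (x : ∀ i, Matrix (Fin 2 × Z i) (Fin 2 × Z i) ℂ) (c : ℝ),
      (∀ i, ‖x i‖ ≤ c) → ‖T x‖ ≤ (1 + ε) * c)
    (hL : ∀ (x y : ∀ i, Matrix (Fin 2 × Z i) (Fin 2 × Z i) ℂ) (a b c d : ℝ),
      (∀ i, ‖x i‖ ≤ c) → (∀ i, ‖y i‖ ≤ d) →
      ‖T (fun i => (a : ℂ) • x i + (b : ℂ) • y i) - ((a : ℂ) • T x + (b : ℂ) • T y)‖ ≤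
        ε * (|a| * c + |b| * d))
    (h1 : ‖T (fun _ => 1) - 1‖ ≤ ε) (h1i : ‖T (fun _ => Complex.I • 1) - Complex.I • 1‖ ≤ ε)
    (hg : ‖T (fun i => symW (g i)) - symW (g j)‖ ≤ ε)
    (hgi : ‖T (fun i => Complex.I • symW (g i)) - Complex.I • symW (g j)‖ ≤ ε)
    (hg1 : ‖T (fun _ => symW 1) - symW 1‖ ≤ ε)
    (hg1i : ‖T (fun _ => Complex.I • symW 1) - Complex.I • symW 1‖ ≤ ε)
    (f : ∀ i, Z i → ℂ) (hf : ∀ i x, ‖f i x‖ ≤ 1) (y : Z j) :
    ‖T (fun i => e11 (fun x => f i (g i x))) (0, y) (0, y)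
      - T (fun i => e11 (f i)) (0, g j y) (0, g j y)‖ ≤ 2000 * Real.sqrt ε := by
  have hJ1 := JLq (A := fun i => Matrix (Fin 2 × Z i) (Fin 2 × Z i) ℂ) T ε hε hε1 hT hL h1 h1i
    (fun i => symW (g i)) (fun i => symW_star (g i)) (fun i => symW_sq (g i))
    (symW (g j)) (symW_star (g j)) (symW_sq (g j)) hg hgi
    (fun i => e11 (f i)) (fun i => norm_e11_le _ (hf i))
  have hJ2 := JLq (A := fun i => Matrix (Fin 2 × Z i) (Fin 2 × Z i) ℂ) T ε hε hε1 hT hL h1 h1i
    (fun i => symW 1) (fun i => symW_star 1) (fun i => symW_sq 1)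
    (symW 1) (symW_star 1) (symW_sq 1) hg1 hg1i
    (fun i => e22W (fun x => f i (g i x))) (fun i => norm_e22_le _ (fun x => hf i _))
  have e1 : (fun i => symW (g i) * e11 (f i) * symW (g i) :
      ∀ i, Matrix (Fin 2 × Z i) (Fin 2 × Z i) ℂ) = fun i => e22W (fun x => f i (g i x)) := by
    funext i
    exact conj_e11 (g i) (f i)
  have e2 : (fun i => symW 1 * e22W (fun x => f i (g i x)) * symW 1 :
      ∀ i, Matrix (Fin 2 × Z i) (Fin 2 × Z i) ℂ) = fun i => e11 (fun x => f i (g i x)) := by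
    funext i
    exact conj_e22 _
  rw [e1] at hJ1
  rw [e2] at hJ2
  set M22 := T (fun i => e22W (fun x => f i (g i x))) with hM22
  have k1 := (entry_le_norm (M22 - symW (g j) * T (fun i => e11 (f i)) * symW (g j))
    (1, y) (1, y)).trans hJ1
  have k2 := (entry_le_norm (T (fun i => e11 (fun x => f i (g i x))) - symW 1 * M22 * symW 1)
    (0, y) (0, y)).trans hJ2
  rw [Matrix.sub_apply, symW_conj, sigW_one] at k1
  rw [Matrix.sub_apply, symW_conj, sigW_zero] at k2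
  have e3 : (1 : Equiv.Perm (Z j)).symm y = y := rfl
  rw [e3] at k2
  calc _ = ‖(T (fun i => e11 (fun x => f i (g i x))) (0, y) (0, y) - M22 (1, y) (1, y))
        + (M22 (1, y) (1, y) - T (fun i => e11 (f i)) (0, g j y) (0, g j y))‖ := by
        congr 1; ring
    _ ≤ _ := norm_add_le _ _
    _ ≤ 1000 * Real.sqrt ε + 1000 * Real.sqrt ε := add_le_add k2 k1
    _ = 2000 * Real.sqrt ε := by ring

end Pool.Agent.H652.L1Q
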