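import Mathlib

set_option autoImplicit false
open scoped Matrix.Norms.L2Operator

namespace Pool.Agent.H652.L1Q



theorem cptQ_bdd {G : ℕ → Type} [∀ i, NormedAddCommGroup (G i)] {x : ∀ i, G i} {c : ℝ}
    (h : ∀ᶠ i in Filter.atTop, ‖x i‖ ≤ c) : ∃ c, ∀ i, ‖x i‖ ≤ c := by
  obtain ⟨N, hN⟩ := Filter.eventually_atTop.1 h
  refine ⟨∑ i ∈ Finset.range N, ‖x i‖ + |c|, fun i => ?_⟩
  have h0 : 0 ≤ ∑ i ∈ Finset.range N, ‖x i‖ := Finset.sum_nonneg fun _ _ => norm_nonneg _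
  rcases Nat.lt_or_ge i N with hi | hi
  · have h1 : ‖x i‖ ≤ ∑ i ∈ Finset.range N, ‖x i‖ :=
      Finset.single_le_sum (f := fun i => ‖x i‖) (fun _ _ => norm_nonneg _)
        (Finset.mem_range.2 hi)
    have := abs_nonneg c
    linarith
  · have h1 := hN i hi
    have := le_abs_self c
    linarith

theorem cptQ {G : ℕ → Type} [∀ i, NormedAddCommGroup (G i)] [∀ i, NormedSpace ℝ (G i)]
    [∀ i, FiniteDimensional ℝ (G i)] {Λ : Type} [Finite Λ]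
    (v : Λ → ∀ i, G i) (hv : ∀ k i, ‖v k i‖ ≤ 1) (j : ℕ) (ε : ℝ) (hε : 0 < ε)
    (h : ∀ T : (∀ i, G i) → G j,
      (∀ (x : ∀ i, G i) (c : ℝ), (∀ᶠ i in Filter.atTop, ‖x i‖ ≤ c) → ‖T x‖ ≤ (1 + ε) * c) →
      (∀ (x y : ∀ i, G i) (a b c d : ℝ), (∀ᶠ i in Filter.atTop, ‖x i‖ ≤ c) →
        (∀ᶠ i in Filter.atTop, ‖y i‖ ≤ d) →
        ‖T (fun i => a • x i + b • y i) - (a • T x + b • T y)‖ ≤ ε * (|a| * c + |b| * d)) →
      (∀ k, ‖T (v k) - v k j‖ ≤ ε) → False) :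
    ∃ E : Finset (∀ i, G i), (∀ x ∈ E, ∃ c, ∀ i, ‖x i‖ ≤ c) ∧
      ∀ T : (∀ i, G i) → G j,
        (∀ x ∈ E, ∀ c : ℝ, (∀ᶠ i in Filter.atTop, ‖x i‖ ≤ c) → ‖T x‖ ≤ (1 + ε) * c) →
        (∀ x ∈ E, ∀ y ∈ E, ∀ a b c d : ℝ, (fun i => a • x i + b • y i) ∈ E →
          (∀ᶠ i in Filter.atTop, ‖x i‖ ≤ c) → (∀ᶠ i in Filter.atTop, ‖y i‖ ≤ d) →
          ‖T (fun i => a • x i + b • y i) - (a • T x + b • T y)‖ ≤ ε * (|a| * c + |b| * d)) →
        (∀ k, ‖T (v k) - v k j‖ ≤ ε) → False := by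
  classical
  by_contra hcon
  push Not at hcon
  have : ProperSpace (G j) := FiniteDimensional.proper ℝ (G j)
  let β := {x : ∀ i, G i // ∃ c, ∀ i, ‖x i‖ ≤ c}
  have hT : ∀ s : Finset β, ∃ T : (∀ i, G i) → G j,
      (∀ x : β, x ∈ s → ∀ c : ℝ, (∀ᶠ i in Filter.atTop, ‖x.1 i‖ ≤ c) → ‖T x.1‖ ≤ (1 + ε) * c) ∧
      (∀ x : β, x ∈ s → ∀ y : β, y ∈ s → ∀ z : β, z ∈ s → ∀ a b c d : ℝ,
        (fun i => a • x.1 i + b • y.1 i) = z.1 →
        (∀ᶠ i in Filter.atTop, ‖x.1 i‖ ≤ c) → (∀ᶠ i in Filter.atTop, ‖y.1 i‖ ≤ d) →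
        ‖T z.1 - (a • T x.1 + b • T y.1)‖ ≤ ε * (|a| * c + |b| * d)) ∧
      (∀ k, ‖T (v k) - v k j‖ ≤ ε) := by
    intro s
    obtain ⟨T, h1, h2, h3, -⟩ := hcon (s.image Subtype.val) (by
      intro x hx
      obtain ⟨y, _, rfl⟩ := Finset.mem_image.1 hx
      exact y.2)
    refine ⟨T, ?_, ?_, h3⟩
    · intro x hx c hc
      exact h1 x.1 (Finset.mem_image_of_mem _ hx) c hc
    · intro x hx y hy z hz a b c d hz' hxc hyd
      have hm : (fun i => a • x.1 i + b • y.1 i) ∈ s.image Subtype.val := by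
        rw [hz']
        exact Finset.mem_image_of_mem _ hz
      have := h2 x.1 (Finset.mem_image_of_mem _ hx) y.1 (Finset.mem_image_of_mem _ hy) a b c d hm
        hxc hyd
      rwa [hz'] at this
  choose T hT1 hT2 hT3 using hT
  obtain ⟨U, hU⟩ : ∃ U : Ultrafilter (Finset β), (U : Filter (Finset β)) ≤ Filter.atTop :=
    ⟨Ultrafilter.of Filter.atTop, Ultrafilter.of_le _⟩
  have hmem : ∀ x : β, ∀ᶠ s in (U : Filter (Finset β)), x ∈ s := by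
    intro x
    apply hU
    filter_upwards [Filter.eventually_ge_atTop {x}] with s hs
    exact hs (Finset.mem_singleton_self x)
  have hlim : ∀ x : β, ∃ L : G j, Filter.Tendsto (fun s => T s x.1) U (nhds L) := by
    intro x
    obtain ⟨c, hc⟩ := x.2
    have hK : IsCompact (Metric.closedBall (0 : G j) ((1 + ε) * c)) := isCompact_closedBall _ _
    obtain ⟨L, _, hL⟩ := hK.ultrafilter_le_nhds (U.map fun s => T s x.1) (by
      rw [Filter.le_principal_iff]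
      show ∀ᶠ s in (U : Filter (Finset β)), T s x.1 ∈ Metric.closedBall (0 : G j) ((1 + ε) * c)
      filter_upwards [hmem x] with s hs
      rw [mem_closedBall_zero_iff]
      exact hT1 s x hs c (Filter.Eventually.of_forall hc))
    exact ⟨L, hL⟩
  choose L hL using hlim
  let T' : (∀ i, G i) → G j := fun x => if hx : ∃ c, ∀ i, ‖x i‖ ≤ c then L ⟨x, hx⟩ else 0
  have hT' : ∀ x : β, T' x.1 = L x := by
    intro x
    exact dif_pos x.2
  refine h T' ?_ ?_ ?_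
  · intro x c hc
    obtain ⟨X, rfl⟩ : ∃ X : β, X.1 = x := ⟨⟨x, cptQ_bdd hc⟩, rfl⟩
    rw [hT']
    refine le_of_tendsto (hL X).norm ?_
    filter_upwards [hmem X] with s hs
    exact hT1 s X hs c hc
  · intro x y a b c d hc hd
    obtain ⟨X, rfl⟩ : ∃ X : β, X.1 = x := ⟨⟨x, cptQ_bdd hc⟩, rfl⟩
    obtain ⟨Y, rfl⟩ : ∃ Y : β, Y.1 = y := ⟨⟨y, cptQ_bdd hd⟩, rfl⟩
    have hbd : ∀ᶠ i in Filter.atTop, ‖a • X.1 i + b • Y.1 i‖ ≤ |a| * c + |b| * d := by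
      filter_upwards [hc, hd] with i h1 h2
      refine (norm_add_le _ _).trans ?_
      rw [norm_smul, norm_smul, Real.norm_eq_abs, Real.norm_eq_abs]
      exact add_le_add (mul_le_mul_of_nonneg_left h1 (abs_nonneg _))
        (mul_le_mul_of_nonneg_left h2 (abs_nonneg _))
    obtain ⟨Z, hZ⟩ : ∃ Z : β, Z.1 = fun i => a • X.1 i + b • Y.1 i :=
      ⟨⟨_, cptQ_bdd hbd⟩, rfl⟩
    rw [← hZ, hT', hT', hT']
    refine le_of_tendsto ((hL Z).sub (((hL X).const_smul a).add ((hL Y).const_smul b))).norm ?_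
    filter_upwards [hmem X, hmem Y, hmem Z] with s h1 h2 h3
    exact hT2 s X h1 Y h2 Z h3 a b c d hZ.symm hc hd
  · intro k
    obtain ⟨X, hX⟩ : ∃ X : β, X.1 = v k := ⟨⟨v k, 1, hv k⟩, rfl⟩
    rw [← hX, hT']
    refine le_of_tendsto ((hL X).sub_const _).norm ?_
    refine Filter.Eventually.of_forall fun s => ?_
    rw [hX]
    exact hT3 s k

end Pool.Agent.H652.L1Q
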